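import Pool.Agent.W99.Dom.Main
import Pool.Agent.H119R2.Kp.D

set_option autoImplicit false

/-!
# The domination number: `γ(G) ≤ k` is evasive for all `1 ≤ k < n` (MP_257582_lc)

For all `1 ≤ k < n` (no condition on the arithmetic of `n`, and `n` need not be large) the monotone
property that a graph on `n` vertices has a dominating set with at most `k` vertices, in other words
that it contains a forest with at least `n - k` edges all components of which are stars, is evasive.

Proof.  Suppose that it is not evasive.  If `2 k ≥ n`, then all nonempty circulant graphs on `n`
vertices have the property (Ore), and the signed sum over the invariant graphs of the cyclic group,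
which has to vanish (Kahn, Saks and Sturtevant), is `-1`.  Let `2 k < n`, and let `t = 0` if `k` is odd
and `t = 1` if `k` is even.  Cut the vertex set into `m = (k - 1 - t) / 2` blocks of size four, `t`
single vertices, and one block of size `N = n - 4 m - t ≥ 2`.  For each subset `E` of the set of
the blocks of size four let `Γ_E` be generated by the translations of these blocks, regarded as
elementary abelian groups, and by one permutation which rotates the block of size `N` and exchanges
the coordinates in the blocks in `E`.  Take the sum over all `2 ^ m` subsets `E` of the signed sums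
over the `Γ_E`-invariant graphs.  In it a complete block of size four has weight `0`, an empty one
weight `2`, the matchings have total weight `-4` and the cycles of length four total weight `2`.  If a
block of size four which is not complete is joined to another part of the vertex set, then the
domination number does not depend on the edges inside the block, and the contributions cancel.  If
no block of size four is joined to another part, but the block of size `N` is joined to the single
vertex, then the edges inside the block of size `N` are irrelevant, and the contributions cancel. If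
no two parts are joined, then the domination number is `t` plus `4` for each empty block of size
four, plus `2` for each other such block, plus the domination number of the block of size `N`; so it
is at most `k = 2 m + 1 + t` if and only if no block of size four is empty and the block of size `N` is
complete.  The sum is `(-2) ^ m` up to sign, a contradiction.
-/

namespace Pool.Agent.Results.MP_257582_lc.DominationNumber

open Pool.Agent.H119R2.Kp (GP)

/-- Every decision strategy `σ` (the next pair to be queried depends only on the answers to the
queries made so far) needs all `n.choose 2` queries: there are two graphs that agree on the first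
`n.choose 2 - 1` queried pairs, one with and one without `P`. -/
def Evasive {n : ℕ} (P : SimpleGraph (Fin n) → Prop) : Prop :=
  ∀ σ : Finset (Sym2 (Fin n)) → SimpleGraph (Fin n) → Sym2 (Fin n),
    (∀ (Q : Finset (Sym2 (Fin n))) (G H : SimpleGraph (Fin n)),
        (∀ e ∈ Q, (e ∈ G.edgeSet ↔ e ∈ H.edgeSet)) → σ Q G = σ Q H) →
    ∃ G H : SimpleGraph (Fin n),
      (∀ e ∈ (fun Q : Finset (Sym2 (Fin n)) => insert (σ Q G) Q)^[n.choose 2 - 1]
            (∅ : Finset (Sym2 (Fin n))),
          (e ∈ G.edgeSet ↔ e ∈ H.edgeSet)) ∧ P G ∧ ¬ P H

/-- `D` is a dominating set of `G`. -/
def Dominating {n : ℕ} (G : SimpleGraph (Fin n)) (D : Finset (Fin n)) : Prop :=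
  ∀ v, v ∈ D ∨ ∃ w ∈ D, G.Adj w v

/-- **The property to have domination number at most `k` is evasive, for all `1 ≤ k < n`.** -/
theorem result (n k : ℕ) (hk : 1 ≤ k) (hkn : k < n) :
    Evasive (fun G : SimpleGraph (Fin n) => ∃ D : Finset (Fin n), D.card ≤ k ∧ Dominating G D) := by
  intro σ hσ
  by_contra hcon
  have hdec : Pool.Agent.H119R2.Kp.Dec (n.choose 2 - 1)
      (fun S : Finset (Pool.Agent.H98R2.Ev.EV (Fin n)) =>
        Pool.Agent.W99.Dom.Dm k (Pool.Agent.H98R2.Ev.toG S)) := by
    refine Pool.Agent.H119R2.Kp.dec_of_strategy _ (fun G => Pool.Agent.W99.Dom.Dm k G) σ hσ
      fun G H hGH hPG => ?_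
    by_contra hPH
    exact hcon ⟨G, H, hGH, hPG, hPH⟩
  have hGP : GP n (n.choose 2 - 1) (fun G => Pool.Agent.W99.Dom.Dm k G) :=
    ⟨fun G H hGH hG => hG.mono hGH, fun σ G hG => hG.map σ, hdec⟩
  have hch : 0 < n.choose 2 := Nat.choose_pos (by omega)
  rcases Nat.lt_or_ge (2 * k) n with h | h
  · rcases Nat.even_or_odd k with he | ho
    · obtain ⟨r, hr⟩ := he
      obtain ⟨m, rfl⟩ : ∃ m, r = m + 1 := ⟨r - 1, by omega⟩
      have hk' : k = 2 * m + 1 + 1 := by omega
      subst hk'
      exact Pool.Agent.W99.Dom.main1 (m := m) (N := n - 4 * m - 1) (t := 1) le_rfl (by omega)
        (by omega) hGP (by omega)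
    · obtain ⟨m, hm⟩ := ho
      have hk' : k = 2 * m + 1 + 0 := by omega
      subst hk'
      exact Pool.Agent.W99.Dom.main1 (m := m) (N := n - 4 * m) (t := 0) (by omega) (by omega)
        (by omega) hGP (by omega)
  · exact Pool.Agent.W99.Dom.main2 (by omega) h hkn hGP (by omega)

end Pool.Agent.Results.MP_257582_lc.DominationNumber
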