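import Mathlib
import Pool.Agent.W5h82.Ev.Main

set_option autoImplicit false

/-!
# Containing a member of a family of graphs is evasive for almost all `n` (MP_257582_lc)

Let `𝓕` be a non-empty family of finite graphs, each with an edge, and let `b` be such that every
member has at most `b` vertices or, more generally, that `𝓕` is stable at `b` (if some blow-up of a
graph `Γ` contains a member, then so does the `b`-fold blow-up of `Γ`). Then the property of
`n`-vertex graphs of containing a member of `𝓕` is evasive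

* for almost all `n` (the exceptional `n` form a set of natural density zero);
* for all large multiples `n` of a prime power `p ^ c` (not less than `b` and the order of a
  member) such that `p - 1` is coprime to `2 ^ 2 ^ e - 1`, where some member is
  `2 ^ 2 ^ e`-colourable;
* if some member is 3-colourable, for all `n = p ^ c * t` with `t` not congruent to 2 modulo 6, in
  particular for all large `n` which are odd or divisible by 3;
* if `b ≤ 1` (the property is preserved by homomorphisms) and some member is `k`-colourable, for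
  all `n ≥ 8 * k ^ 3`.

Proof. Cut the vertex set into fields of orders `p ^ c`, `p ^ (c + 1)` and, if `b ≤ 1`, single
vertices. The group of the independent translations of the fields and of one element which
multiplies each field by a generator is of Oliver type; its invariant graphs without a member
correspond to the graphs on the set of the blocks into which no member has a homomorphism. If the
property is not evasive, their signed number `E` is `0`, hence `0` modulo `q = 2` and `q = 3`. In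
the ring of block types modulo `q` the type `x` of an independent block satisfies
`(1 - Frobenius) ^ j x = 0` if a member is `q ^ j`-colourable; thus `x ^ (q ^ q ^ e) = x` if
`j ≤ q ^ e`, and `E` modulo `q` depends only on the number of blocks modulo `q ^ q ^ e - 1`. It is
`1` for one block and `±1` if the number of blocks is the least chromatic number of a member.
-/

namespace Pool.Agent.Results.MP_257582_lc.ForbiddenSubgraphs

open Filter

/-- `P` is evasive: every strategy `σ` (the next pair to be queried depends only on the answers to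
the queries made so far) needs all `n.choose 2` queries: there are two graphs that agree on the
first `n.choose 2 - 1` queried pairs, one with and one without `P`. -/
def Evasive {n : ℕ} (P : SimpleGraph (Fin n) → Prop) : Prop :=
  ∀ σ : Finset (Sym2 (Fin n)) → SimpleGraph (Fin n) → Sym2 (Fin n),
    (∀ (Q : Finset (Sym2 (Fin n))) (G H : SimpleGraph (Fin n)),
        (∀ e ∈ Q, (e ∈ G.edgeSet ↔ e ∈ H.edgeSet)) → σ Q G = σ Q H) →
    ∃ G H : SimpleGraph (Fin n),
      (∀ e ∈ (fun Q : Finset (Sym2 (Fin n)) => insert (σ Q G) Q)^[n.choose 2 - 1]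
            (∅ : Finset (Sym2 (Fin n))),
          (e ∈ G.edgeSet ↔ e ∈ H.edgeSet)) ∧ P G ∧ ¬ P H

/-- `G` contains a member of the family `𝓕` as a (not necessarily induced) subgraph. -/
def ContainsMember (𝓕 : Set (Σ k : ℕ, SimpleGraph (Fin k))) {V : Type} (G : SimpleGraph V) :
    Prop :=
  ∃ F ∈ 𝓕, ∃ f : Fin F.1 → V, Function.Injective f ∧ ∀ x y, F.2.Adj x y → G.Adj (f x) (f y)

/-- The `b`-fold blow-up of `G`: every vertex is replaced by `b` independent vertices and every
edge by a complete bipartite graph. -/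
def BlowUp {V : Type} (G : SimpleGraph V) (b : ℕ) : SimpleGraph (V × Fin b) where
  Adj x y := G.Adj x.1 y.1
  symm := ⟨fun _ _ h => h.symm⟩
  loopless := ⟨fun x h => G.loopless.irrefl x.1 h⟩

/-- `𝓕` is stable at `b`: if some blow-up of a finite graph contains a member of `𝓕`, then so does
its `b`-fold blow-up. -/
def StableAt (𝓕 : Set (Σ k : ℕ, SimpleGraph (Fin k))) (b : ℕ) : Prop :=
  ∀ (m N : ℕ) (Γ : SimpleGraph (Fin m)),
    ContainsMember 𝓕 (BlowUp Γ N) → ContainsMember 𝓕 (BlowUp Γ b)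

theorem containsMember_iff (𝓕 : Set (Σ k : ℕ, SimpleGraph (Fin k))) {V : Type}
    (G : SimpleGraph V) : ContainsMember 𝓕 G ↔ Pool.Agent.H98R2.Nb.Has 𝓕 G := by
  constructor
  · rintro ⟨F, hF, f, hf, hadj⟩
    exact ⟨F, hF, ⟨⟨⟨f, fun {x y} h => hadj x y h⟩, hf⟩⟩⟩
  · rintro ⟨F, hF, ⟨f⟩⟩
    exact ⟨F, hF, f, f.injective, fun x y h => f.toHom.map_adj h⟩

theorem evasive_iff (𝓕 : Set (Σ k : ℕ, SimpleGraph (Fin k))) (n : ℕ) :
    Evasive (fun G : SimpleGraph (Fin n) => ContainsMember 𝓕 G) ↔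
      Pool.Agent.W5h82.Ev.Evas (fun G : SimpleGraph (Fin n) => Pool.Agent.H98R2.Nb.Has 𝓕 G) := by
  have h : (fun G : SimpleGraph (Fin n) => ContainsMember 𝓕 G) =
      (fun G : SimpleGraph (Fin n) => Pool.Agent.H98R2.Nb.Has 𝓕 G) :=
    funext fun G => propext (containsMember_iff 𝓕 G)
  rw [h]
  rfl

theorem stable_of (𝓕 : Set (Σ k : ℕ, SimpleGraph (Fin k))) (b : ℕ)
    (h : (∀ F ∈ 𝓕, F.1 ≤ b) ∨ StableAt 𝓕 b) : Pool.Agent.W5h82.Ev.StableAt 𝓕 b := by
  intro m N Γ hΓ
  rcases h with h | h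
  · obtain ⟨F, hF, ⟨f⟩⟩ := hΓ
    refine ⟨F, hF, ⟨⟨⟨fun x => ((f x).1, Fin.castLE (h F hF) x), fun {x y} hxy => ?_⟩, ?_⟩⟩⟩
    · exact f.toHom.map_adj hxy
    · intro x y hxy
      exact Fin.castLE_injective (h F hF) (congrArg Prod.snd hxy)
  · exact (containsMember_iff 𝓕 _).1 (h m N Γ ((containsMember_iff 𝓕 _).2 hΓ))

/-- **Containing a member of a blow-up stable family is evasive for almost all `n`**, for all large
odd `n` and all large multiples `n` of 3 if some member is 3-colourable, and for all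
`n ≥ 8 * k ^ 3` if the property is preserved by homomorphisms and a member is `k`-colourable. -/
theorem result (𝓕 : Set (Σ k : ℕ, SimpleGraph (Fin k))) (hne : 𝓕.Nonempty)
    (hedge : ∀ F ∈ 𝓕, F.2 ≠ ⊥) (b : ℕ) (hst : (∀ F ∈ 𝓕, F.1 ≤ b) ∨ StableAt 𝓕 b) :
    (Tendsto (fun N : ℕ => (({n : ℕ | n < N ∧
        ¬ Evasive (fun G : SimpleGraph (Fin n) => ContainsMember 𝓕 G)}.ncard : ℕ) : ℝ) / N)
      atTop (nhds 0)) ∧
    (∀ e p c : ℕ, (∃ F ∈ 𝓕, F.2.Colorable (2 ^ 2 ^ e)) → p.Prime → 1 ≤ c → b ≤ p ^ c →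
      (∃ F ∈ 𝓕, F.1 ≤ p ^ c) → Nat.Coprime (p - 1) (2 ^ 2 ^ e - 1) →
      ∃ n₀ : ℕ, ∀ n : ℕ, n₀ ≤ n → p ^ c ∣ n →
        Evasive (fun G : SimpleGraph (Fin n) => ContainsMember 𝓕 G)) ∧
    ((∃ F ∈ 𝓕, F.2.Colorable 3) →
      (∀ p c t : ℕ, p.Prime → 1 ≤ c → b ≤ p ^ c → (∃ F ∈ 𝓕, F.1 ≤ p ^ c) → 1 ≤ t → t % 6 ≠ 2 →
        Evasive (fun G : SimpleGraph (Fin (p ^ c * t)) => ContainsMember 𝓕 G)) ∧
      ∃ n₀ : ℕ, ∀ n : ℕ, n₀ ≤ n → (Odd n ∨ 3 ∣ n) →
        Evasive (fun G : SimpleGraph (Fin n) => ContainsMember 𝓕 G)) ∧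
    (b ≤ 1 → ∀ k : ℕ, (∃ F ∈ 𝓕, F.2.Colorable k) → ∀ n : ℕ, 8 * k ^ 3 ≤ n →
      Evasive (fun G : SimpleGraph (Fin n) => ContainsMember 𝓕 G)) := by
  classical
  have hst' := stable_of 𝓕 b hst
  simp only [evasive_iff]
  refine ⟨?_, ?_, ?_, ?_⟩
  · have h := Pool.Agent.W5h82.Ev.evas_density hne hedge hst'
      (fun n => ¬ Pool.Agent.W5h82.Ev.Evas
        (fun G : SimpleGraph (Fin n) => Pool.Agent.H98R2.Nb.Has 𝓕 G)) (fun n h => h)
    convert h using 4 with N
    rw [← Set.ncard_coe_finset]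
    congr 1
    ext n
    simp
  · intro e p c hcol hp hc hb hF hcop
    exact Pool.Agent.W5h82.Ev.evas_dvd hedge hst' e hcol p c hp hc hb hF hcop
  · intro hcol
    have h1 : ∀ p c t : ℕ, p.Prime → 1 ≤ c → b ≤ p ^ c → (∃ F ∈ 𝓕, F.1 ≤ p ^ c) → 1 ≤ t →
        t % 6 ≠ 2 → Pool.Agent.W5h82.Ev.Evas
          (fun G : SimpleGraph (Fin (p ^ c * t)) => Pool.Agent.H98R2.Nb.Has 𝓕 G) := by
      intro p c t hp hc hb hF ht ht6
      refine Pool.Agent.W5h82.Ev.evas_three hedge hst' hcol hp hc hb hF rfl ?_ ht6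
      have h2 : p ^ 1 ≤ p ^ c := Nat.pow_le_pow_right hp.pos hc
      rw [pow_one] at h2
      exact hp.two_le.trans (h2.trans (Nat.le_mul_of_pos_right _ ht))
    refine ⟨h1, ?_⟩
    obtain ⟨F, hF⟩ := hne
    obtain ⟨n₀, hn₀⟩ := Pool.Agent.W5h82.Ev.odd_or_three (max b F.1)
    refine ⟨n₀ + 1, fun n hn h => ?_⟩
    obtain ⟨p, c, t, hp, hc, hB, rfl, ht6⟩ := hn₀ n (by omega) h
    refine h1 p c t hp hc ((le_max_left _ _).trans hB) ⟨F, hF, (le_max_right _ _).trans hB⟩ ?_ ht6
    rcases Nat.eq_zero_or_pos t with h0 | h0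
    · subst h0
      omega
    · exact h0
  · intro hb k hcol n hn
    refine Pool.Agent.W5h82.Ev.evas_all hedge ?_ k hcol n hn
    intro m N Γ hΓ
    refine Pool.Agent.W5h82.Ev.has_mono (hst' m N Γ hΓ) ⟨⟨⟨fun z => (z.1, Fin.castLE hb z.2),
      fun {x y} hxy => hxy⟩, ?_⟩⟩
    intro x y hxy
    have h3 := Prod.ext_iff.1 hxy
    exact Prod.ext h3.1 (Fin.castLE_injective hb h3.2)

end Pool.Agent.Results.MP_257582_lc.ForbiddenSubgraphs
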