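import Mathlib
import Pool.Agent.W5h78.Karp.Final

set_option autoImplicit false

/-!
# MP_257582_lc: every monotone graph property has query complexity at least `(3/8 - o(1)) n^2`

For every `ε > 0` and all large `n`, every non-trivial monotone isomorphism invariant property of
graphs on `n` vertices and every adaptive strategy with fewer than `(3/8 - ε) n^2` queries there
are two graphs, one with and one without the property, that agree on all queried pairs.  So at least
three quarters of all pairs have to be queried.

Proof.  After the reduction of Kahn, Saks and Sturtevant to properties that fail for graphs with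
an isolated vertex and hold for graphs with a universal vertex, write `n = 4 p + r` with a prime `p`
and a small number `r ≥ 1`.  Cut the vertex set into four blocks of size `p` and a set `F` of `r`
fixed vertices, and consider the graphs in which the blocks and `F` are empty or complete and every
pair of these five sets is completely joined or not joined.  If the property has complexity less
than `6 p^2 - 2 p`, then for each permutation `π` of the blocks, each set of `π`-orbits of pairs of
blocks and of blocks with at least `6 p^2 - 2 p` pairs of vertices, and each choice of the other
edges, the signed sum of the values of the property vanishes (the group is generated by the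
translations of the blocks and by `π` combined with the multiplication by a primitive root; theorems
of Smith and Lefschetz).  The pairs with a vertex in `F` stay fixed in these relations, but
exchanging `F` with a part of a block gives inequalities between the values for different
neighbourhoods of `F`.  There are 1992 isomorphism types of such graphs; 54 of the relations and 803
inequalities are contradictory.  The refutation consists of 72 case distinctions, in each of which
one case is excluded by bound propagation; it is checked here by the kernel.

Uses the repository's library on evasiveness (`Pool.Agent.H98R2.Ev`, `Pool.Agent.H119R2.Kp`: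
relation for general groups, reduction to the star case, prime number theorem).
-/

namespace Pool.Agent.Results.MP_257582_lc.ThreeEighths

/-- Every non-trivial monotone graph property has query complexity at least
`(3/8 - o(1)) n^2`. -/
theorem result : ∀ ε : ℝ, 0 < ε → ∃ N : ℕ, ∀ n : ℕ, N ≤ n →
    ∀ P : SimpleGraph (Fin n) → Prop,
      (∀ G H : SimpleGraph (Fin n), G ≤ H → P G → P H) →
      (∀ (σ : Fin n ≃ Fin n) (G : SimpleGraph (Fin n)), P G → P (G.map σ.toEmbedding)) →
      (∃ G : SimpleGraph (Fin n), P G) →
      (∃ G : SimpleGraph (Fin n), ¬ P G) →
      ∀ s : Finset (Sym2 (Fin n)) → SimpleGraph (Fin n) → Sym2 (Fin n),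
        (∀ (Q : Finset (Sym2 (Fin n))) (G H : SimpleGraph (Fin n)),
            (∀ e ∈ Q, (e ∈ G.edgeSet ↔ e ∈ H.edgeSet)) → s Q G = s Q H) →
        ∀ q : ℕ, (q : ℝ) < (3 / 8 - ε) * (n : ℝ) ^ 2 →
          ∃ G H : SimpleGraph (Fin n),
            (∀ e ∈ (fun Q : Finset (Sym2 (Fin n)) => insert (s Q G) Q)^[q]
                  (∅ : Finset (Sym2 (Fin n))),
                (e ∈ G.edgeSet ↔ e ∈ H.edgeSet)) ∧ P G ∧ ¬ P H := by
  intro ε hε
  obtain ⟨N, hN⟩ := Pool.Agent.W5h78.Karp.final ε hε
  exact ⟨N, fun n hn P hmono hiso h1 h0 s hs q hq => hN n hn P hiso hmono h1 h0 s hs q hq⟩

end Pool.Agent.Results.MP_257582_lc.ThreeEighths
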