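import Pool.Agent.W5h81.Tp.Main
import Pool.Agent.Results.MP_257582_lc.DisjointCopies

set_option autoImplicit false

/-!
# Packings of trees on `p` vertices: the property to contain `k` disjoint ones is evasive

Let `p` be an odd prime and `k ≥ 1`, `n ≥ p k`. The property of graphs on `n` vertices to contain
`k` vertex-disjoint trees with `p` vertices each (equivalently: `k` pairwise disjoint sets of `p`
vertices which induce connected subgraphs) is evasive in each of the following cases:

* `p = 3`: for every `n` and every `k` with `1 ≤ k ≤ n / 3` it is evasive to decide whether a graph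
  on `n` vertices contains `k` vertex-disjoint paths on three vertices;
* `p ≤ k` and `p k ≤ n < 2 p k - p`;
* `n = r Q` and `k ≤ r ⌊Q / p⌋` for a prime `Q`, or for a prime power `Q` such that `gcd (r, m)` is
  `1` or a prime power, where `m = Q - 1` or `m = (Q - 1) / 2` (for example `n` is a prime power).
  This case is a consequence of `DisjointCopies`.

Proof of the second case.  The vertex set is cut into `m = k - 1` blocks of size `p` and a set
`F` of `f = n - p m` fixed points, `p ≤ f < p k`. The group is generated by the
translations of the single blocks and the rotation of the blocks. Its orbits of pairs are the pairs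
in `F`, the stars of the elements of `F` (all pairs with the vertices of the blocks), the nonzero
differences `± d` of blocks and the nonzero differences `± c` inside the blocks. So an invariant
graph is described by a graph `Z` on `F` and one additional vertex `o` (the vertices of the blocks)
and a set `τ` of differences. If the property is not evasive, then the signed sum of its values over
the invariant graphs vanishes (Kahn, Saks and Sturtevant).

If `τ` is not empty, then the vertices of the blocks are partitioned into `m` connected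
sets of size `p` (cycles or stars), and there are `m + 1 = k` disjoint connected sets of size `p`
if and only if `Z` has a component of size at least `p` which does not contain `o` or the component
of `o` has at least `p + 1` vertices (if `o` is a cut vertex of a connected set of `p + 1` vertices,
the vertices of one of the `m` sets are distributed to the two parts). If `τ` is empty then the
property does not depend on the pairs in `F` with an element whose star is present (sets which
contain such an element can be replaced by stars, because `k (p - 1) ≤ p m`), and it does not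
hold without stars. So the signed sum is equal to the signed number `T` of the graphs `Z` in which
the component of `o` has at most `p` vertices and all other components have less than `p` vertices.

The signed number of the connected graphs with `j` labelled vertices is `(-1) ^ (j - 1) (j - 1)!`.
Let `e r` be the signed number of the graphs with `r` vertices all components of which have less
than `p` vertices. One finds `T = (1 - f) e f`, and a recursion for `e` shows that `e (p q + s)` is
`1` modulo `p` for `s = 0, 1` and `p q` times an integer prime to `p` for `2 ≤ s < p`, `q ≥ 1`.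
So `e f` is not zero.
-/

namespace Pool.Agent.Results.MP_257582_lc.TreePackings

open Pool.Agent.H119R2.Kp (GP PV pve_map_adj)
open Pool.Agent.W5h81.Tp (Con HT St con_iff)

/-- Every decision strategy `σ` (the next pair to be queried depends only on the answers to the
queries made so far) needs all `n.choose 2` queries: there are two graphs that agree on the first
`n.choose 2 - 1` queried pairs, one with and one without `P`. -/
def Evasive {n : ℕ} (P : SimpleGraph (Fin n) → Prop) : Prop :=
  ∀ σ : Finset (Sym2 (Fin n)) → SimpleGraph (Fin n) → Sym2 (Fin n),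
    (∀ (Q : Finset (Sym2 (Fin n))) (G H : SimpleGraph (Fin n)),
        (∀ e ∈ Q, (e ∈ G.edgeSet ↔ e ∈ H.edgeSet)) → σ Q G = σ Q H) →
    ∃ G H : SimpleGraph (Fin n),
      (∀ e ∈ (fun Q : Finset (Sym2 (Fin n)) => insert (σ Q G) Q)^[n.choose 2 - 1]
            (∅ : Finset (Sym2 (Fin n))),
          (e ∈ G.edgeSet ↔ e ∈ H.edgeSet)) ∧ P G ∧ ¬ P H

/-- There are `k` pairwise disjoint sets of `p` vertices which induce connected subgraphs of `G`
(equivalently, `G` contains `k` vertex-disjoint trees with `p` vertices each). -/
def DisjointTrees {n : ℕ} (k p : ℕ) (G : SimpleGraph (Fin n)) : Prop :=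
  ∃ s : Fin k → Finset (Fin n), (∀ i, (s i).card = p) ∧ (∀ i j, i ≠ j → Disjoint (s i) (s j)) ∧
    ∀ i, (G.induce (s i : Set (Fin n))).Connected

theorem trees_iff {n k p : ℕ} (G : SimpleGraph (Fin n)) :
    DisjointTrees k p G ↔ HT (Fin k) p G.Adj := by
  unfold DisjointTrees HT
  simp only [con_iff]

/-- segments of paths -/
theorem paths (n r Q p k : ℕ) (hp : 1 ≤ p) (hk : k ≤ r * (Q / p)) (e : Fin r × Fin Q ≃ Fin n) :
    DisjointTrees k p ((DisjointCopies.copies r (SimpleGraph.pathGraph Q)).map e.toEmbedding) := by
  classical
  rw [trees_iff]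
  let g : Fin k → Fin r × Fin (Q / p) := fun i => finProdFinEquiv.symm (Fin.castLE hk i)
  have hg : Function.Injective g :=
    finProdFinEquiv.symm.injective.comp (Fin.castLE_injective hk)
  have hb : ∀ (i : Fin k) (j : Fin p), p * ((g i).2 : ℕ) + j < Q := by
    intro i j
    have h1 := (g i).2.2
    have h2 := j.2
    have h3 : p * ((g i).2 + 1) ≤ p * (Q / p) := Nat.mul_le_mul_left _ h1
    have h4 : p * (Q / p) ≤ Q := Nat.mul_div_le Q p
    have h5 : p * (((g i).2 : ℕ) + 1) = p * (g i).2 + p := by ring
    omega
  let φ : Fin k → Fin p → Fin n := fun i j => e ((g i).1, ⟨p * (g i).2 + j, hb i j⟩)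
  have hdiv : ∀ (i : Fin k) (j : Fin p), (p * ((g i).2 : ℕ) + j) / p = (g i).2 := by
    intro i j
    rw [Nat.mul_add_div (by omega), Nat.div_eq_of_lt j.2, add_zero]
  refine ⟨fun i => Finset.univ.image (φ i), fun i => ?_, fun i j hij => ?_, fun i => ?_⟩
  · rw [Finset.card_image_of_injective, Finset.card_univ, Fintype.card_fin]
    intro x y hxy
    simp only [φ, EmbeddingLike.apply_eq_iff_eq, Prod.mk.injEq, Fin.mk.injEq, true_and] at hxy
    exact Fin.ext (by omega)
  · rw [Finset.disjoint_left]
    intro x hx hx'
    obtain ⟨a, _, rfl⟩ := Finset.mem_image.1 hx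
    obtain ⟨b, _, hab⟩ := Finset.mem_image.1 hx'
    simp only [φ, EmbeddingLike.apply_eq_iff_eq, Prod.mk.injEq, Fin.mk.injEq] at hab
    apply hij
    apply hg
    refine Prod.ext hab.1.symm (Fin.ext ?_)
    rw [← hdiv i a, ← hdiv j b, hab.2]
  · refine ⟨φ i ⟨0, by omega⟩, Finset.mem_image_of_mem _ (Finset.mem_univ _), ?_⟩
    have h1 : ∀ (t : ℕ) (ht : t < p), Relation.ReflTransGen
        (St ((DisjointCopies.copies r (SimpleGraph.pathGraph Q)).map e.toEmbedding).Adj
          (Finset.univ.image (φ i))) (φ i ⟨0, by omega⟩) (φ i ⟨t, ht⟩) := by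
      intro t
      induction t with
      | zero => intro _; exact Relation.ReflTransGen.refl
      | succ t ih =>
        intro ht
        refine (ih (by omega)).tail ⟨?_, Finset.mem_image_of_mem _ (Finset.mem_univ _),
          Finset.mem_image_of_mem _ (Finset.mem_univ _)⟩
        rw [pve_map_adj]
        simp only [φ, Equiv.symm_apply_apply]
        refine ⟨rfl, ?_⟩
        rw [SimpleGraph.pathGraph_adj]
        left
        rfl
    intro x hx
    obtain ⟨a, _, rfl⟩ := Finset.mem_image.1 hx
    exact h1 a.1 a.2

/-- **Packings of trees on `p` vertices.** -/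
theorem result (n p k : ℕ) (hp : p.Prime) (hp3 : 3 ≤ p) (hk : 1 ≤ k) (hkn : p * k ≤ n)
    (h : p = 3 ∨ (p ≤ k ∧ n + p < 2 * (p * k)) ∨
      ∃ r Q : ℕ, n = r * Q ∧ k ≤ r * (Q / p) ∧ (Q.Prime ∨ (IsPrimePow Q ∧ ∃ m : ℕ,
        (m = Q - 1 ∨ 2 * m = Q - 1) ∧ (Nat.gcd r m = 1 ∨ IsPrimePow (Nat.gcd r m))))) :
    Evasive (DisjointTrees (n := n) k p) := by
  have hmono : ∀ G H : SimpleGraph (Fin n), G ≤ H → DisjointTrees k p G → DisjointTrees k p H := by
    intro G H hGH hG
    rw [trees_iff] at hG ⊢
    exact hG.map id Function.injective_id fun a b hab => hGH hab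
  have hiso : ∀ (σ : Fin n ≃ Fin n) (G : SimpleGraph (Fin n)), DisjointTrees k p G →
      DisjointTrees k p (G.map σ.toEmbedding) := by
    intro σ G hG
    rw [trees_iff] at hG ⊢
    refine hG.map σ σ.injective fun a b hab => ?_
    rw [pve_map_adj]
    simpa using hab
  have hbot : ¬ DisjointTrees k p (⊥ : SimpleGraph (Fin n)) := by
    rw [trees_iff]
    rintro ⟨s, h1, _, h3⟩
    obtain ⟨v, hv⟩ : (s ⟨0, hk⟩).Nonempty := Finset.card_pos.1 (by rw [h1]; omega)
    obtain ⟨x, _, hx, _⟩ := (h3 ⟨0, hk⟩).neighbour (fun a b h => h.symm) hv (by rw [h1]; omega)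
    exact hx
  -- the case of `DisjointCopies`
  have hcop : ∀ r Q : ℕ, n = r * Q → k ≤ r * (Q / p) → (Q.Prime ∨ (IsPrimePow Q ∧ ∃ m : ℕ,
      (m = Q - 1 ∨ 2 * m = Q - 1) ∧ (Nat.gcd r m = 1 ∨ IsPrimePow (Nat.gcd r m)))) →
      Evasive (DisjointTrees (n := n) k p) := by
    intro r Q hnQ hkr hQ
    have e0 : Nonempty (Fin r × Fin Q ≃ Fin n) := by
      rw [hnQ]
      exact ⟨finProdFinEquiv⟩
    obtain ⟨e⟩ := e0
    have hQ' : IsPrimePow Q := by
      rcases hQ with hQ | hQ
      · exact hQ.isPrimePow
      · exact hQ.1
    refine DisjointCopies.result n r Q hQ' hnQ (SimpleGraph.pathGraph Q) ?_ _ hmono hiso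
      (Or.inl ⟨hbot, e, paths n r Q p k (by omega) hkr e⟩)
    rcases hQ with hQ | ⟨_, hQ⟩
    · exact Or.inl ⟨hQ, rfl⟩
    · refine Or.inr ⟨?_, hQ⟩
      exact (SimpleGraph.pathGraph.bicoloring Q).colorable
  -- the case of long packings
  have hlong : p ≤ k → n + p < 2 * (p * k) → Evasive (DisjointTrees (n := n) k p) := by
    intro hpk hn σ hσ
    by_contra hcon
    have hdec : Pool.Agent.H119R2.Kp.Dec (n.choose 2 - 1)
        (fun S : Finset (Pool.Agent.H98R2.Ev.EV (Fin n)) =>
          DisjointTrees k p (Pool.Agent.H98R2.Ev.toG S)) := by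
      refine Pool.Agent.H119R2.Kp.dec_of_strategy _ (DisjointTrees k p) σ hσ
        fun G H hGH hPG => ?_
      by_contra hPH
      exact hcon ⟨G, H, hGH, hPG, hPH⟩
    have hGP : GP n (n.choose 2 - 1) (DisjointTrees k p) := ⟨hmono, hiso, hdec⟩
    have h2 : 2 ≤ n := by
      have : p * 1 ≤ p * k := Nat.mul_le_mul_left _ hk
      omega
    have hch : 0 < n.choose 2 := Nat.choose_pos h2
    exact Pool.Agent.W5h81.Tp.main hp hp3 hpk hkn hn hGP (by omega) fun G => trees_iff G
  rcases h with rfl | ⟨h1, h2⟩ | ⟨r, Q, h1, h2, h3⟩
  · rcases Nat.eq_two_pow_or_exists_odd_prime_and_dvd n with ⟨a, ha⟩ | ⟨l, hl, ⟨r, hr⟩, hlo⟩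
    · -- powers of two
      have ha0 : a ≠ 0 := by
        rintro rfl
        rw [pow_zero] at ha
        omega
      refine hcop 1 n (one_mul n).symm ?_ (Or.inr ⟨?_, n - 1, Or.inl rfl, Or.inl ?_⟩)
      · rw [one_mul]
        omega
      · rw [ha]
        exact Nat.prime_two.isPrimePow.pow ha0
      · exact Nat.gcd_one_left _
    · have hrl : n = r * l := by rw [hr]; ring
      have hl2 := hl.two_le
      have hr0 : 0 < r := by
        rcases Nat.eq_zero_or_pos r with h | h
        · subst h
          omega
        · exact h
      by_cases hlo1 : 3 ≤ k ∧ n + 3 < 2 * (3 * k)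
      · exact hlong hlo1.1 hlo1.2
      · refine hcop r l hrl ?_ (Or.inl hl)
        have hl3 : l = 3 ∨ l = 5 ∨ 7 ≤ l := by
          obtain ⟨t, ht⟩ := hlo
          by_contra hcon
          push Not at hcon
          omega
        rcases hl3 with rfl | rfl | hl7
        · simp only [Nat.div_self (by omega : 0 < 3)]
          omega
        · norm_num
          omega
        · have h4 : 7 * r ≤ l * r := Nat.mul_le_mul_right _ hl7
          obtain ⟨q, hq⟩ : ∃ q, q = l / 3 := ⟨_, rfl⟩
          rw [← hq]
          have h5 : l ≤ 3 * q + 2 := by omega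
          have h6 : 2 ≤ q := by omega
          have h7 : r * l ≤ 3 * (r * q) + 2 * r := by nlinarith
          have h8 : r * 2 ≤ r * q := Nat.mul_le_mul_left _ h6
          rcases Nat.lt_or_ge k 3 with h9 | h9
          · omega
          · have h10 : 2 * (3 * k) ≤ n + 3 := by
              by_contra hcon
              exact hlo1 ⟨h9, by omega⟩
            nlinarith
  · exact hlong h1 h2
  · exact hcop r Q h1 h2 h3

end Pool.Agent.Results.MP_257582_lc.TreePackings
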